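import Mathlib
import Pool.Agent.Simpl.Final

/-!
# Sporadic simplicial line arrangements have few symmetries
-/

open Module Classical Pool.Agent.Simpl

namespace Pool.Agent.Results.MP_a56c7f_co.FewSymmetries

/-- Let `A` be a simplicial arrangement of `n` lines of the real projective plane (finitely many
planes of `ℝ³` with intersection zero such that every connected component of the complement of
their union has exactly three edges) and let `G` be a set of linear automorphisms of `ℝ³` mapping
`A` to itself, no two of them proportional, i.e. a set of different projective symmetries of `A`.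
If `|G| ≥ 130 √n` then `A` is a near-pencil, or projectively equivalent to the sides and the
symmetry axes of a regular `N`-gon for some `N ≥ 3`, or (`N` even) to this arrangement with the
line at infinity. So a sporadic simplicial arrangement of `n` lines has fewer than `130 √n`
projective symmetries. -/
theorem result (A : Finset (Submodule ℝ (Fin 3 → ℝ))) (hA : IsArrangement A)
    (hS : IsSimplicial A) (G : Finset ((Fin 3 → ℝ) ≃ₗ[ℝ] (Fin 3 → ℝ)))
    (hG : ∀ g ∈ G, A.image (Submodule.map g.toLinearMap) = A)
    (hG' : ∀ g ∈ G, ∀ h ∈ G, (∃ c : ℝ, ∀ x, h x = c • g x) → g = h)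
    (hcard : 130 * Real.sqrt A.card ≤ G.card) :
    IsNearPencil A ∨ ∃ N : ℕ, 3 ≤ N ∧ ∃ e : (Fin 3 → ℝ) ≃ₗ[ℝ] (Fin 3 → ℝ),
      A.image (Submodule.map e.toLinearMap) = regular N ∨
      (Even N ∧ A.image (Submodule.map e.toLinearMap) = insert (plane 0 0 1) (regular N)) :=
  simplicial_symmetric A hA hS G hG hG' hcard

end Pool.Agent.Results.MP_a56c7f_co.FewSymmetries
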