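import Mathlib
import Pool.Agent.SimplV.Final

/-!
# A sporadic simplicial line arrangement has no point on almost half of its lines
-/

open Module Classical Pool.Agent.Simpl

namespace Pool.Agent.Results.MP_a56c7f_co.HighMultiplicity

/-- Let `A` be a simplicial arrangement of `n ≥ 10 ^ 6` lines of the real projective plane (finitely
many planes of `ℝ³` with intersection zero such that every connected component of the complement of
their union has exactly three edges) and let `P` be a point of the projective plane which lies on at
least `(1/2 - 10⁻⁵) n` lines of `A`. Then `A` is a near-pencil, or projectively equivalent to the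
sides and the symmetry axes of a regular `N`-gon for some `N ≥ 3`, or (`N` even) to this arrangement
with the line at infinity. So in a sporadic simplicial arrangement of `n ≥ 10 ^ 6` lines every point
lies on fewer than `(1/2 - 10⁻⁵) n` lines. -/
theorem result (A : Finset (Submodule ℝ (Fin 3 → ℝ))) (hA : IsArrangement A)
    (hS : IsSimplicial A) (hn : 10 ^ 6 ≤ A.card) (P : Submodule ℝ (Fin 3 → ℝ))
    (hP : finrank ℝ P = 1)
    (hm : (1 / 2 - 1 / 100000 : ℝ) * A.card ≤ (A.filter fun H => P ≤ H).card) :
    IsNearPencil A ∨ ∃ N : ℕ, 3 ≤ N ∧ ∃ e : (Fin 3 → ℝ) ≃ₗ[ℝ] (Fin 3 → ℝ),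
      A.image (Submodule.map e.toLinearMap) = regular N ∨
      (Even N ∧ A.image (Submodule.map e.toLinearMap) = insert (plane 0 0 1) (regular N)) :=
  Pool.Agent.SimplV.high_mult A hA hS (by omega) P hP hm

end Pool.Agent.Results.MP_a56c7f_co.HighMultiplicity
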