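import Mathlib
import Pool.Agent.SimplR.Coord

/-!
# Every line of a simplicial arrangement has many vertices
-/

open Module Classical Pool.Agent.Simpl

namespace Pool.Agent.Results.MP_a56c7f_co.LineVertices

/-- Let `A` be a simplicial arrangement of `n` lines of the real projective plane (finitely many
planes of `ℝ³` with intersection zero such that every connected component of the complement of
their union has exactly three edges) which is not a near-pencil, and let `L` be a line of `A`. Then
the other lines of `A` meet `L` in at least `(n + 11) / 9` different points. -/
theorem result (A : Finset (Submodule ℝ (Fin 3 → ℝ))) (hA : IsArrangement A)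
    (hS : IsSimplicial A) (hnp : ¬ IsNearPencil A) (L : Submodule ℝ (Fin 3 → ℝ)) (hL : L ∈ A) :
    A.card + 11 ≤ 9 * ((A.erase L).image fun H => H ⊓ L).card :=
  Pool.Agent.SimplR.line_vertices A hA hS hnp L hL

end Pool.Agent.Results.MP_a56c7f_co.LineVertices
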