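import Mathlib
import Pool.Agent.SimplC.Final

/-!
# A sporadic simplicial line arrangement has no conic touching almost half of its lines
-/

open Module Classical Pool.Agent.Simpl

namespace Pool.Agent.Results.MP_a56c7f_co.TangentConic

/-- Let `A` be a simplicial arrangement of `n ≥ 10 ^ 9` lines of the real projective plane (finitely
many planes of `ℝ³` with intersection zero such that every connected component of the complement of
their union has exactly three edges), let `B` be a non-degenerate symmetric bilinear form on `ℝ³`,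
and let `T` be a set of at least `(1/2 - 10⁻⁷) n` lines of `A` which are tangent to the conic
`B(x, x) = 0` (`H` is the tangent in the point `v` if `0 ≠ v ∈ H` and `H` is orthogonal to `v`). Then
`A` is projectively equivalent to the sides and the symmetry axes of a regular `N`-gon for some
`N ≥ 3`, or (`N` even) to this arrangement with the line at infinity. So in a sporadic simplicial
arrangement of `n ≥ 10 ^ 9` lines fewer than `(1/2 - 10⁻⁷) n` lines are tangent to a common
non-degenerate conic. -/
theorem result (A : Finset (Submodule ℝ (Fin 3 → ℝ))) (hA : IsArrangement A)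
    (hS : IsSimplicial A) (hn : 10 ^ 9 ≤ A.card) (B : LinearMap.BilinForm ℝ (Fin 3 → ℝ))
    (hB : B.IsSymm) (hB' : B.Nondegenerate) (T : Finset (Submodule ℝ (Fin 3 → ℝ))) (hTA : T ⊆ A)
    (hT : ∀ H ∈ T, ∃ v ∈ H, v ≠ 0 ∧ ∀ w ∈ H, B v w = 0)
    (hc : (1 / 2 - 1 / 10 ^ 7 : ℝ) * A.card ≤ T.card) :
    ∃ N : ℕ, 3 ≤ N ∧ ∃ e : (Fin 3 → ℝ) ≃ₗ[ℝ] (Fin 3 → ℝ),
      A.image (Submodule.map e.toLinearMap) = regular N ∨
      (Even N ∧ A.image (Submodule.map e.toLinearMap) = insert (plane 0 0 1) (regular N)) :=
  Pool.Agent.SimplC.conic_case A hA hS hn B hB hB' T hTA hT hc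

end Pool.Agent.Results.MP_a56c7f_co.TangentConic
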